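import Mathlib

/-! # H49I, chunk I3 -/

set_option autoImplicit false

namespace Pool.Agent.Lib.H49I

open Polynomial IntermediateField in
/-- (I3, M) The value at `b / a` of the minimal polynomial of `x`, by the norm. -/
theorem value_bound {x z : ℂ} {N : ℕ} {a b : ℤ} (ha : 1 ≤ a) (hN : 0 < N) (hx : IsIntegral ℤ x)
    (hz : IsIntegral ℤ z) (h : z * (a * x - b) = N) :
    |Polynomial.aeval ((b : ℚ) / a) (minpoly ℤ x)| ≤ (N : ℚ) ^ (minpoly ℤ x).natDegree := by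
  have ha0 : (a : ℂ) ≠ 0 := by
    have : a ≠ 0 := by omega
    exact_mod_cast this
  have haQ : (1 : ℚ) ≤ a := by exact_mod_cast ha
  obtain ⟨c, hc⟩ : ∃ c : ℚ, c = (b : ℚ) / a := ⟨_, rfl⟩
  obtain ⟨y, hy⟩ : ∃ y : ℂ, y = x - algebraMap ℚ ℂ c := ⟨_, rfl⟩
  have hay : (a : ℂ) * x - b = a * y := by
    rw [hy, hc]
    simp only [eq_ratCast, Rat.cast_div, Rat.cast_intCast]
    field_simp
  rw [hay] at h
  have hy0 : y ≠ 0 := by
    intro h0
    rw [h0, mul_zero, mul_zero] at h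
    have : (N : ℂ) ≠ 0 := by exact_mod_cast hN.ne'
    exact this h.symm
  have hxQ : IsIntegral ℚ x := hx.tower_top
  have hyQ : IsIntegral ℚ y := by
    rw [hy]
    exact hxQ.sub isIntegral_algebraMap
  have hmy : minpoly ℚ y = (minpoly ℚ x).comp (X + C c) := by
    rw [hy]
    exact minpoly.sub_algebraMap x c
  have hmx : minpoly ℚ x = (minpoly ℤ x).map (algebraMap ℤ ℚ) :=
    minpoly.isIntegrallyClosed_eq_field_fractions' ℚ hx
  have hdeg : (minpoly ℚ y).natDegree = (minpoly ℤ x).natDegree := by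
    rw [hmy, natDegree_comp, natDegree_X_add_C, mul_one, hmx, (minpoly.monic hx).natDegree_map]
  have hcoeff : (minpoly ℚ y).coeff 0 = Polynomial.aeval ((b : ℚ) / a) (minpoly ℤ x) := by
    rw [coeff_zero_eq_eval_zero, hmy, eval_comp, eval_add, eval_X, eval_C, zero_add, hmx, eval_map_algebraMap, hc]
  have : FiniteDimensional ℚ ℚ⟮y⟯ := IntermediateField.adjoin.finiteDimensional hyQ
  have hnorm : Algebra.norm ℚ (AdjoinSimple.gen ℚ y) = (-1) ^ (minpoly ℤ x).natDegree *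
      Polynomial.aeval ((b : ℚ) / a) (minpoly ℤ x) := by
    have h1 := Algebra.PowerBasis.norm_gen_eq_coeff_zero_minpoly (IntermediateField.adjoin.powerBasis hyQ)
    rw [IntermediateField.adjoin.powerBasis_gen, IntermediateField.adjoin.powerBasis_dim,
      IntermediateField.minpoly_gen, hdeg, hcoeff] at h1
    exact h1
  obtain ⟨w, hw⟩ : ∃ w : ℚ⟮y⟯, w = (N : ℚ⟮y⟯) / ((a : ℚ⟮y⟯) * AdjoinSimple.gen ℚ y) := ⟨_, rfl⟩
  have hwz : algebraMap ℚ⟮y⟯ ℂ w = z := by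
    rw [hw, map_div₀, map_mul, map_natCast, map_intCast, AdjoinSimple.algebraMap_gen, div_eq_iff (mul_ne_zero ha0 hy0),
      h]
  have hwi : IsIntegral ℤ w := by
    rw [← isIntegral_algebraMap_iff (algebraMap ℚ⟮y⟯ ℂ).injective, hwz]
    exact hz
  obtain ⟨m, hm⟩ := IsIntegrallyClosed.isIntegral_iff.1 (Algebra.isIntegral_norm ℚ hwi)
  have hgen : AdjoinSimple.gen ℚ y ≠ 0 := by
    intro h0
    have h1 := congrArg (algebraMap ℚ⟮y⟯ ℂ) h0
    rw [AdjoinSimple.algebraMap_gen, map_zero] at h1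
    exact hy0 h1
  have haK : (a : ℚ⟮y⟯) ≠ 0 := by
    have : a ≠ 0 := by omega
    exact_mod_cast this
  have hprod : w * ((a : ℚ⟮y⟯) * AdjoinSimple.gen ℚ y) = (N : ℚ⟮y⟯) := by
    rw [hw, div_mul_cancel₀ _ (mul_ne_zero haK hgen)]
  have h2 := congrArg (Algebra.norm ℚ) hprod
  have haN : Algebra.norm ℚ (a : ℚ⟮y⟯) = (a : ℚ) ^ (minpoly ℤ x).natDegree := by
    have h3 : (a : ℚ⟮y⟯) = algebraMap ℚ ℚ⟮y⟯ (a : ℚ) := by simp
    rw [h3, Algebra.norm_algebraMap, IntermediateField.adjoin.finrank hyQ, hdeg]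
  have hNN : Algebra.norm ℚ (N : ℚ⟮y⟯) = (N : ℚ) ^ (minpoly ℤ x).natDegree := by
    have h3 : (N : ℚ⟮y⟯) = algebraMap ℚ ℚ⟮y⟯ (N : ℚ) := by simp
    rw [h3, Algebra.norm_algebraMap, IntermediateField.adjoin.finrank hyQ, hdeg]
  rw [map_mul, map_mul, hnorm, haN, hNN, ← hm] at h2
  have hNpos : (0 : ℚ) < (N : ℚ) ^ (minpoly ℤ x).natDegree := by positivity
  have hm0 : m ≠ 0 := by
    rintro rfl
    rw [map_zero, zero_mul] at h2
    exact hNpos.ne h2
  have hm1 : (1 : ℚ) ≤ |(m : ℚ)| := by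
    have : (1 : ℤ) ≤ |m| := Int.one_le_abs hm0
    exact_mod_cast this
  have h4 := congrArg abs h2
  rw [abs_mul, abs_mul, abs_mul, abs_pow, abs_pow, abs_neg, abs_one, one_pow, one_mul, abs_of_pos hNpos,
    abs_of_pos (by linarith : (0 : ℚ) < a)] at h4
  rw [← h4]
  have h5 : (1 : ℚ) ≤ |(algebraMap ℤ ℚ) m| := by
    simpa using hm1
  have h6 : (1 : ℚ) ≤ (a : ℚ) ^ (minpoly ℤ x).natDegree := one_le_pow₀ haQ
  have h7 := abs_nonneg ((Polynomial.aeval ((b : ℚ) / a)) (minpoly ℤ x))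
  calc |(Polynomial.aeval ((b : ℚ) / a)) (minpoly ℤ x)| =
        1 * (1 * |(Polynomial.aeval ((b : ℚ) / a)) (minpoly ℤ x)|) := by ring
    _ ≤ |(algebraMap ℤ ℚ) m| * ((a : ℚ) ^ (minpoly ℤ x).natDegree *
        |(Polynomial.aeval ((b : ℚ) / a)) (minpoly ℤ x)|) := by
      refine mul_le_mul h5 (mul_le_mul_of_nonneg_right h6 h7) (by positivity) (abs_nonneg _)

end Pool.Agent.Lib.H49I
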