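import Mathlib

/-! # H49I, chunk I4 -/

set_option autoImplicit false

namespace Pool.Agent.Lib.H49I

private theorem int32 (f : Polynomial ℤ) (hf : f.natDegree ≤ 5) (c : ℚ)
    (hc : c = 0 ∨ c = 1 ∨ c = -1 ∨ c = 2 ∨ c = 1 / 2) :
    ∃ z : ℤ, 32 * Polynomial.aeval c f = z := by
  have h : Polynomial.aeval c f = ∑ i ∈ Finset.range 6, (f.coeff i : ℚ) * c ^ i := by
    rw [Polynomial.aeval_eq_sum_range' (n := 6) (by omega)]
    exact Finset.sum_congr rfl fun i _ => by rw [zsmul_eq_mul]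
  rw [h]
  simp only [Finset.sum_range_succ, Finset.sum_range_zero]
  rcases hc with rfl | rfl | rfl | rfl | rfl
  · exact ⟨32 * f.coeff 0, by push_cast; ring⟩
  · exact ⟨32 * (f.coeff 0 + f.coeff 1 + f.coeff 2 + f.coeff 3 + f.coeff 4 + f.coeff 5), by
      push_cast; ring⟩
  · exact ⟨32 * (f.coeff 0 - f.coeff 1 + f.coeff 2 - f.coeff 3 + f.coeff 4 - f.coeff 5), by
      push_cast; ring⟩
  · exact ⟨32 * (f.coeff 0 + 2 * f.coeff 1 + 4 * f.coeff 2 + 8 * f.coeff 3 + 16 * f.coeff 4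
      + 32 * f.coeff 5), by push_cast; ring⟩
  · exact ⟨32 * f.coeff 0 + 16 * f.coeff 1 + 8 * f.coeff 2 + 4 * f.coeff 3 + 2 * f.coeff 4
      + f.coeff 5, by push_cast; ring⟩

/-- (I4, M) PROOF.  The map `f ↦ (natDegree f, f(0), f(1), f(-1), f(2), 2 ^ d f(1/2))` (`d` the degree; the last five are
integers, the last one because `f` has integer coefficients) has finite range on this set, since the values are bounded by
`32 B`, and it is injective: two monic polynomials of the same degree `d ≤ 5` which agree at five points are equal (the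
difference has degree `< d ≤ 5` and five roots, e.g. `Polynomial.eq_of_degree_sub_lt_of_eval_finset_eq` over `ℚ`). -/
theorem fin_polys (B : ℚ) : {f : Polynomial ℤ | f.Monic ∧ f.natDegree ≤ 5 ∧
    ∀ c ∈ ({0, 1, -1, 2, 1 / 2} : Finset ℚ), |Polynomial.aeval c f| ≤ B}.Finite := by
  classical
  set M : ℤ := ⌈32 * B⌉ with hM
  set T : Set ℚ := (fun z : ℤ => (z : ℚ) / 32) '' (Set.Icc (-M) M) with hT
  have hTf : T.Finite := (Set.finite_Icc (-M) M).image _
  set Φ : Polynomial ℤ → ℕ × ℚ × ℚ × ℚ × ℚ × ℚ := fun f =>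
    (f.natDegree, Polynomial.aeval (0 : ℚ) f, Polynomial.aeval (1 : ℚ) f, Polynomial.aeval (-1 : ℚ) f,
      Polynomial.aeval (2 : ℚ) f, Polynomial.aeval (1 / 2 : ℚ) f) with hΦ
  have hval : ∀ f : Polynomial ℤ, f.natDegree ≤ 5 → ∀ c : ℚ,
      (c = 0 ∨ c = 1 ∨ c = -1 ∨ c = 2 ∨ c = 1 / 2) → |Polynomial.aeval c f| ≤ B →
      Polynomial.aeval c f ∈ T := by
    intro f hf c hc hb
    obtain ⟨z, hz⟩ := int32 f hf c hc
    refine ⟨z, ?_, by simp only; rw [← hz]; ring⟩
    rw [abs_le] at hb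
    have h1 : (z : ℚ) ≤ 32 * B := by rw [← hz]; linarith [hb.2]
    have h2 : -(32 * B) ≤ (z : ℚ) := by rw [← hz]; linarith [hb.1]
    have h3 : (32 * B : ℚ) ≤ M := Int.le_ceil _
    constructor
    · have : ((-M : ℤ) : ℚ) ≤ z := by push_cast; linarith
      exact_mod_cast this
    · have : (z : ℚ) ≤ (M : ℚ) := by linarith
      exact_mod_cast this
  refine Set.Finite.of_injOn (f := Φ) (t := Set.Iic 5 ×ˢ T ×ˢ T ×ˢ T ×ˢ T ×ˢ T) ?_ ?_
    ((Set.finite_Iic 5).prod (hTf.prod (hTf.prod (hTf.prod (hTf.prod hTf)))))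
  · rintro f ⟨_, hd, hb⟩
    refine ⟨hd, hval f hd 0 (by tauto) (hb 0 (by simp)), hval f hd 1 (by tauto) (hb 1 (by simp)),
      hval f hd (-1) (by tauto) (hb (-1) (by simp)), hval f hd 2 (by tauto) (hb 2 (by simp)),
      hval f hd (1 / 2) (by tauto) (hb (1 / 2) (by simp))⟩
  · rintro f ⟨hf, hfd, _⟩ g ⟨hg, hgd, _⟩ h
    simp only [hΦ, Prod.mk.injEq] at h
    obtain ⟨h0, h1, h2, h3, h4, h5⟩ := h
    have hinj : Function.Injective (algebraMap ℤ ℚ) := Int.cast_injective
    apply Polynomial.map_injective _ hinj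
    have hF : (f.map (algebraMap ℤ ℚ)).Monic := hf.map _
    have hG : (g.map (algebraMap ℤ ℚ)).Monic := hg.map _
    have hFd : (f.map (algebraMap ℤ ℚ)).natDegree = f.natDegree := hf.natDegree_map _
    have hGd : (g.map (algebraMap ℤ ℚ)).natDegree = g.natDegree := hg.natDegree_map _
    have hlt := Polynomial.degree_sub_lt (p := f.map (algebraMap ℤ ℚ)) (q := g.map (algebraMap ℤ ℚ))
      (by rw [Polynomial.degree_eq_natDegree hF.ne_zero, Polynomial.degree_eq_natDegree hG.ne_zero,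
        hFd, hGd, h0]) hF.ne_zero (by rw [hF.leadingCoeff, hG.leadingCoeff])
    have hcard : ({0, 1, -1, 2, 1 / 2} : Finset ℚ).card = 5 := by norm_num [Finset.card_insert_of_notMem]
    apply Polynomial.eq_of_degree_sub_lt_of_eval_finset_eq ({0, 1, -1, 2, 1 / 2} : Finset ℚ)
    · rw [hcard]
      refine lt_of_lt_of_le hlt ?_
      rw [Polynomial.degree_eq_natDegree hF.ne_zero, hFd]
      exact_mod_cast hfd
    · intro c hc
      rw [Polynomial.eval_map_algebraMap, Polynomial.eval_map_algebraMap]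
      simp only [Finset.mem_insert, Finset.mem_singleton] at hc
      rcases hc with rfl | rfl | rfl | rfl | rfl
      · exact h1
      · exact h2
      · exact h3
      · exact h4
      · exact h5

end Pool.Agent.Lib.H49I
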