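import Pool.Agent.Lib.H49I.I2
import Pool.Agent.Lib.H49I.I3
import Pool.Agent.Lib.H49I.I4

/-! # H49I: integral points of the solution set of a maximal system -/

set_option autoImplicit false

namespace Pool.Agent.Lib.H49I

open H58D

/-- A coordinate which omits the five values on the solution set: its values of degree at most 5 at integral points. -/
theorem coord {n : ℕ} (S : Set (Eqn n)) (i : Fin n)
    (h0 : ∀ x ∈ Sol S, x i ≠ 0) (h1 : ∀ x ∈ Sol S, x i ≠ 1) (h2 : ∀ x ∈ Sol S, x i ≠ -1)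
    (h3 : ∀ x ∈ Sol S, x i ≠ 2) (h4 : ∀ x ∈ Sol S, 2 * x i ≠ 1) :
    ∃ F : Set ℂ, F.Finite ∧ ∀ x ∈ Sol S, (∀ j, IsIntegral ℤ (x j)) → (minpoly ℤ (x i)).natDegree ≤ 5 → x i ∈ F := by
  -- uniform bound for one value
  have key : ∀ a b : ℤ, 1 ≤ a → (∀ x ∈ Sol S, (a : ℂ) * x i ≠ b) →
      ∃ N : ℕ, ∀ x ∈ Sol S, (∀ j, IsIntegral ℤ (x j)) → (minpoly ℤ (x i)).natDegree ≤ 5 →
        |Polynomial.aeval ((b : ℚ) / a) (minpoly ℤ (x i))| ≤ (N : ℚ) ^ 5 := by
    intro a b ha hne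
    obtain ⟨N, hN, hc⟩ := certificate S (MvPolynomial.C a * MvPolynomial.X i - MvPolynomial.C b) (by
      intro x hx he
      apply hne x hx
      simp only [map_sub, map_mul, MvPolynomial.aeval_X, MvPolynomial.aeval_C] at he
      have he' : (a : ℂ) * x i - b = 0 := by simpa using he
      linear_combination he')
    refine ⟨N, fun x hx hint hdeg => ?_⟩
    obtain ⟨z, hz, hzN⟩ := hc x hx hint
    have hzN' : z * (a * x i - b) = N := by
      simp only [map_sub, map_mul, MvPolynomial.aeval_X, MvPolynomial.aeval_C] at hzN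
      simpa using hzN
    refine (value_bound ha hN (hint i) hz hzN').trans ?_
    exact pow_le_pow_right₀ (by exact_mod_cast hN) hdeg
  obtain ⟨N0, k0⟩ := key 1 0 le_rfl (by simpa using h0)
  obtain ⟨N1, k1⟩ := key 1 1 le_rfl (by simpa using h1)
  obtain ⟨N2, k2⟩ := key 1 (-1) le_rfl (by simpa using h2)
  obtain ⟨N3, k3⟩ := key 1 2 le_rfl (by simpa using h3)
  obtain ⟨N4, k4⟩ := key 2 1 (by norm_num) (by simpa using h4)
  set B : ℚ := (N0 : ℚ) ^ 5 + (N1 : ℚ) ^ 5 + (N2 : ℚ) ^ 5 + (N3 : ℚ) ^ 5 + (N4 : ℚ) ^ 5 with hB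
  have p0 : (0 : ℚ) ≤ (N0 : ℚ) ^ 5 := by positivity
  have p1 : (0 : ℚ) ≤ (N1 : ℚ) ^ 5 := by positivity
  have p2 : (0 : ℚ) ≤ (N2 : ℚ) ^ 5 := by positivity
  have p3 : (0 : ℚ) ≤ (N3 : ℚ) ^ 5 := by positivity
  have p4 : (0 : ℚ) ≤ (N4 : ℚ) ^ 5 := by positivity
  have hfin := fin_polys B
  refine ⟨⋃ f ∈ {f : Polynomial ℤ | f.Monic ∧ f.natDegree ≤ 5 ∧
    ∀ c ∈ ({0, 1, -1, 2, 1 / 2} : Finset ℚ), |Polynomial.aeval c f| ≤ B}, ((f.aroots ℂ).toFinset : Set ℂ), ?_, ?_⟩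
  · exact hfin.biUnion fun f _ => Finset.finite_toSet _
  · intro x hx hint hdeg
    have hmon := minpoly.monic (hint i)
    refine Set.mem_biUnion (x := minpoly ℤ (x i)) ⟨hmon, hdeg, ?_⟩ ?_
    · intro c hc
      simp only [Finset.mem_insert, Finset.mem_singleton] at hc
      rcases hc with rfl | rfl | rfl | rfl | rfl
      · have := k0 x hx hint hdeg
        rw [show (((0 : ℤ) : ℚ) / ((1 : ℤ) : ℚ)) = 0 by norm_num] at this
        linarith
      · have := k1 x hx hint hdeg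
        rw [show (((1 : ℤ) : ℚ) / ((1 : ℤ) : ℚ)) = 1 by norm_num] at this
        linarith
      · have := k2 x hx hint hdeg
        rw [show (((-1 : ℤ) : ℚ) / ((1 : ℤ) : ℚ)) = -1 by norm_num] at this
        linarith
      · have := k3 x hx hint hdeg
        rw [show (((2 : ℤ) : ℚ) / ((1 : ℤ) : ℚ)) = 2 by norm_num] at this
        linarith
      · have := k4 x hx hint hdeg
        rw [show (((1 : ℤ) : ℚ) / ((2 : ℤ) : ℚ)) = 1 / 2 by norm_num] at this
        linarith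
    · rw [Finset.mem_coe, Multiset.mem_toFinset, Polynomial.mem_aroots]
      exact ⟨hmon.ne_zero, minpoly.aeval ℤ (x i)⟩

end Pool.Agent.Lib.H49I
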