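import Pool.Agent.Lib.H58D.Sys

/-! # H49I, chunk I2 -/

set_option autoImplicit false

namespace Pool.Agent.Lib.H49I

open H58D

/-- The polynomial of an equation. -/
private noncomputable def i2q {n : ℕ} : Eqn n → MvPolynomial (Fin n) ℚ
  | Eqn.one i => MvPolynomial.X i - 1
  | Eqn.add i j k => MvPolynomial.X i + MvPolynomial.X j - MvPolynomial.X k
  | Eqn.mul i j k => MvPolynomial.X i * MvPolynomial.X j - MvPolynomial.X k

private theorem i2q_iff {n : ℕ} (x : Fin n → ℂ) (e : Eqn n) : MvPolynomial.aeval x (i2q e) = 0 ↔ Holds x e := by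
  cases e with
  | one i => simp [i2q, Holds, sub_eq_zero]
  | add i j k => simp [i2q, Holds, sub_eq_zero]
  | mul i j k => simp [i2q, Holds, sub_eq_zero]

private theorem i2_nat (M : ℕ) : IsIntegral ℤ (M : ℂ) := by
  have h := isIntegral_algebraMap (R := ℤ) (A := ℂ) (x := (M : ℤ))
  simpa using h

private theorem i2_den {n : ℕ} (g : MvPolynomial (Fin n) ℚ) : ∃ N : ℕ, 0 < N ∧ ∀ x : Fin n → ℂ,
    (∀ i, IsIntegral ℤ (x i)) → IsIntegral ℤ ((N : ℂ) * MvPolynomial.aeval x g) := by
  induction g using MvPolynomial.induction_on with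
  | C a =>
    refine ⟨a.den, a.pos, fun x _ => ?_⟩
    have h1 : (a.den : ℂ) * MvPolynomial.aeval x (MvPolynomial.C a) = ((a.num : ℤ) : ℂ) := by
      rw [MvPolynomial.aeval_C, eq_ratCast]
      have h2 : ((a.den : ℚ) * a : ℚ) = (a.num : ℚ) := Rat.den_mul_eq_num a
      exact_mod_cast congrArg (fun q : ℚ => (q : ℂ)) h2
    rw [h1]
    exact isIntegral_algebraMap (R := ℤ) (A := ℂ) (x := a.num)
  | add f g hf hg =>
    obtain ⟨N, hN, hf⟩ := hf
    obtain ⟨M, hM, hg⟩ := hg
    refine ⟨N * M, Nat.mul_pos hN hM, fun x hx => ?_⟩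
    have h1 : ((N * M : ℕ) : ℂ) * MvPolynomial.aeval x (f + g) =
        (M : ℂ) * ((N : ℂ) * MvPolynomial.aeval x f) + (N : ℂ) * ((M : ℂ) * MvPolynomial.aeval x g) := by
      rw [map_add]
      push_cast
      ring
    rw [h1]
    exact ((i2_nat M).mul (hf x hx)).add ((i2_nat N).mul (hg x hx))
  | mul_X f i hf =>
    obtain ⟨N, hN, hf⟩ := hf
    refine ⟨N, hN, fun x hx => ?_⟩
    have h1 : (N : ℂ) * MvPolynomial.aeval x (f * MvPolynomial.X i) =
        ((N : ℂ) * MvPolynomial.aeval x f) * x i := by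
      rw [map_mul, MvPolynomial.aeval_X]
      ring
    rw [h1]
    exact (hf x hx).mul (hx i)

/-- (I2, M) PROOF.  Nullstellensatz over `K = AlgebraicClosure ℚ` (with an embedding `φ : K →ₐ[ℚ] ℂ`,
`IsAlgClosed.lift`).  In `R = MvPolynomial (Fin n) K` let `I` be the ideal spanned by the polynomials of the
equations of `S` (`X i - 1`, `X i + X j - X k`, `X i * X j - X k`) and by `MvPolynomial.map (algebraMap ℤ K) p`.  A
common zero in `K ^ n` is mapped by `φ` to a point of `Sol S` where `aeval x p = 0`; so there is none and `1 ∈ I`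
(`MvPolynomial.vanishingIdeal_zeroLocus_eq_radical`).  So `1 = g * p + h`, `h` in the span of the equations.  Let `N > 0` be
an integer with `N * c` integral over `ℤ` for every coefficient `c` of `g` (`exists_integral_multiple`, product over the
support).  If `x ∈ Sol S` has integral coordinates, they are algebraic, so `x = φ ∘ y`, `y : Fin n → K` integral (the range of
`φ` is the set of all algebraic numbers), `g(y) * p(y) = 1`, and `z = φ (N * g(y))` is integral with `z * p(x) = N`. -/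
theorem certificate {n : ℕ} (S : Set (Eqn n)) (p : MvPolynomial (Fin n) ℤ)
    (h : ∀ x ∈ Sol S, MvPolynomial.aeval x p ≠ 0) :
    ∃ N : ℕ, 0 < N ∧ ∀ x ∈ Sol S, (∀ i, IsIntegral ℤ (x i)) →
      ∃ z : ℂ, IsIntegral ℤ z ∧ z * MvPolynomial.aeval x p = N := by
  have hp : ∀ x : Fin n → ℂ, MvPolynomial.aeval x (MvPolynomial.map (algebraMap ℤ ℚ) p) =
      MvPolynomial.aeval x p := fun x => MvPolynomial.aeval_map_algebraMap ℚ x p
  have hz : MvPolynomial.zeroLocus ℂ
      (Ideal.span (insert (MvPolynomial.map (algebraMap ℤ ℚ) p) (i2q '' S))) = ∅ := by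
    rw [MvPolynomial.zeroLocus_span, Set.eq_empty_iff_forall_notMem]
    intro x hx
    refine h x (fun e he => ?_) ?_
    · exact (i2q_iff x e).1 (hx _ (Set.mem_insert_of_mem _ ⟨e, he, rfl⟩))
    · rw [← hp x]
      exact hx _ (Set.mem_insert _ _)
  have htop : Ideal.span (insert (MvPolynomial.map (algebraMap ℤ ℚ) p) (i2q '' S)) = ⊤ := by
    rw [← Ideal.radical_eq_top, ← MvPolynomial.vanishingIdeal_zeroLocus_eq_radical (K := ℂ), hz,
      MvPolynomial.vanishingIdeal_empty]
  obtain ⟨g, r, hr, h1⟩ := Ideal.mem_span_insert.1 ((Ideal.eq_top_iff_one _).1 htop)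
  obtain ⟨N, hN, hg⟩ := i2_den g
  refine ⟨N, hN, fun x hx hint => ⟨(N : ℂ) * MvPolynomial.aeval x g, hg x hint, ?_⟩⟩
  have hr0 : MvPolynomial.aeval x r = 0 := by
    have hle : Ideal.span (i2q '' S) ≤ MvPolynomial.vanishingIdeal ℚ ({x} : Set (Fin n → ℂ)) := by
      rw [Ideal.span_le]
      rintro _ ⟨e, he, rfl⟩
      exact (MvPolynomial.mem_vanishingIdeal_singleton_iff x _).2 ((i2q_iff x e).2 (hx e he))
    exact (MvPolynomial.mem_vanishingIdeal_singleton_iff x r).1 (hle hr)
  have h2 := congrArg (MvPolynomial.aeval x) h1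
  rw [map_one, map_add, map_mul, hr0, add_zero, hp x] at h2
  rw [mul_assoc, ← h2, mul_one]

end Pool.Agent.Lib.H49I
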